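import Pool.Agent.Work.MP_5c1620_co.Dark
import Pool.Agent.Work.MP_5c1620_co.Strict
import Pool.Agent.Work.MP_5c1620_co.Conn2

set_option autoImplicit false

namespace Pool.Agent.Results.MP_5c1620_co.StrictEscape

/-- Pach's question on reflecting disks, strict form.  For pairwise disjoint closed disks with
centres `c i` and radii `r i > 0` in the Euclidean plane and every point `x` outside all of them,
there is a unit vector `v 0` such that the light path from `x` in direction `v 0` reaches infinity
after finitely many reflections.  Precisely there are a number `m` of reflections, vertices `p k`,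
directions `v k` and flight lengths `T k` with `p 0 = x`, such that for every `k < m` the open
segment from `p k` to `p (k+1) = p k + T k • v k` misses all the closed disks, `p (k+1)` lies on
the circle of some disk `i`, the incoming direction points strictly into that disk (the inner
product with the outward normal `p (k+1) - c i` is negative, so the incidence is not tangential),
and `v (k+1)` is the mirror image of `v k` in the tangent line of the circle at `p (k+1)`; finally
the open half-line from `p m` in direction `v m` misses all the closed disks. -/
theorem result :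
    ∀ (n : ℕ) (c : Fin n → EuclideanSpace ℝ (Fin 2)) (r : Fin n → ℝ),
      (∀ i, 0 < r i) →
      (∀ i j, i ≠ j → r i + r j < dist (c i) (c j)) →
      ∀ x : EuclideanSpace ℝ (Fin 2), (∀ i, r i < dist x (c i)) →
        ∃ (m : ℕ) (p v : ℕ → EuclideanSpace ℝ (Fin 2)) (T : ℕ → ℝ),
          p 0 = x ∧ ‖v 0‖ = 1 ∧
          (∀ k, k < m →
            0 < T k ∧ p (k + 1) = p k + T k • v k ∧
            (∀ i, ∀ t : ℝ, 0 < t → t < T k → r i < dist (p k + t • v k) (c i)) ∧
            ∃ i, dist (p (k + 1)) (c i) = r i ∧
              inner ℝ (v k) (p (k + 1) - c i) < 0 ∧
              v (k + 1) = v k - (2 * inner ℝ (v k) (p (k + 1) - c i) /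
                inner ℝ (p (k + 1) - c i) (p (k + 1) - c i)) • (p (k + 1) - c i)) ∧
          (∀ i, ∀ t : ℝ, 0 < t → r i < dist (p m + t • v m) (c i)) := by
  intro n c r hr hsep x hx
  exact Pool.Agent.Work.MP_5c1620_co.strict_of_main (fun _ C =>
    Pool.Agent.Work.MP_5c1620_co.no_dark C (by have := C.Rpos none; linarith)
      (Pool.Agent.Work.MP_5c1620_co.esc_ae_of_dich
        (fun C => Pool.Agent.Work.MP_5c1620_co.loc_const
          (fun C => Pool.Agent.Work.MP_5c1620_co.CROSS_holds C) C) C)) n c r hr hsep x hx

end Pool.Agent.Results.MP_5c1620_co.StrictEscape
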